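import Pool.Agent.Work.MP_db9399_exp.Interface
import Pool.Agent.Work.MP_db9399_bg.Interface

/-!
# MP_db9399, PHASE 2 (short spots), VERT: general tools (owner helper94)

See `BLUEPRINT.md`. All statements are independent of the machine. The sizes of the demands of one
random round are only bounded by `log ^ 2` from below.
-/

set_option autoImplicit false

namespace Pool.Agent.Work.MP_db9399_vt

open Finset Classical
open Pool.Agent.Work.MP_db9399_all (nb mis PSt av)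
open Pool.Agent.Work.MP_db9399_bg (den cl LabP)

universe u

/-! ## Colours: one random round -/

/-- RNDK (block): `Stmt_RND` of MP_db9399_all for demands of size at least `log ^ 2`. Copy of the
proof of `stmt_RND` (Work/MP_db9399_all_helper7/RND.lean); `RND.dem_pack` is used as it is with
`m := (Md d).card / Δ`. -/
def Stmt_RNDK : Prop :=
  ∀ om : ℝ, 0 < om → om ≤ 1 → ∃ (q : ℕ) (κ : ℝ) (Δ0 : ℕ), 2 ≤ q ∧ 0 < κ ∧ κ ≤ 1 ∧
    ∀ {V : Type u} [Fintype V] (G : SimpleGraph V) (Δ N : ℕ) (t : V → V → ℕ)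
      (Dm : Type u) [Fintype Dm] (Md : Dm → Finset V) (B : Dm → V → Finset ℕ)
      (Kl : Dm → V → Finset V),
      Δ0 ≤ Δ → Δ ≤ N → N ≤ 2 * Δ → (∀ v, (nb G v).card ≤ Δ) →
      (∀ d, Real.log Δ ^ 2 ≤ ((Md d).card : ℝ)) → (∀ d, (Md d).card ≤ Δ) →
      (∀ d, ∀ y ∈ Md d, B d y ⊆ range (q * N) ∧ om * N ≤ ((B d y).card : ℝ)) →
      (∀ d, ∀ y ∈ Md d, (Kl d y).card ≤ 3 * Δ ∧ y ∉ Kl d y) →
      (∀ w, (univ.filter (fun d => w ∈ Md d ∨ ∃ y ∈ Md d, w ∈ Kl d y)).card ≤ Δ ^ 4) →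
      ∃ f : V → ℕ, (∀ v, f v < q * N) ∧
        (∀ v, ((nb G v).filter (fun x => f x = t v x)).card ≤ 1) ∧
        ∀ d, κ * ((Md d).card : ℝ) ≤ (((Md d).filter (fun y => f y ∈ B d y ∧
          ∀ w ∈ Kl d y, f w = f y → N ≤ f y)).card : ℝ)

/-- STEPK (block, from RNDK): `Stmt_STEP` of MP_db9399_all for demands of size at least `log ^ 2`.
The proof of `stmt_STEP` (Work/MP_db9399_all_helper95/STEP.lean) does not change. -/
def Stmt_STEPK : Prop :=
  ∀ om : ℝ, 0 < om → om ≤ 1 → ∃ (κ : ℝ) (Δ0 : ℕ), 0 < κ ∧ κ ≤ 1 ∧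
    ∀ {V : Type u} [Fintype V] (G : SimpleGraph V) (Δ N : ℕ) (t : V → V → ℕ)
      (F : V → Finset ℕ) (c : V → ℕ) (U : Finset V) (Da Di : Type u) [Fintype Da] [Fintype Di]
      (Ma : Da → Finset V) (B : Da → V → Finset ℕ) (Kl : Da → V → Finset V)
      (Mi : Di → Finset V),
      Δ0 ≤ Δ → Δ ≤ N → N ≤ 2 * Δ → (∀ v, (nb G v).card ≤ Δ) → PSt G N F c U →
      (∀ d, Real.log Δ ^ 2 ≤ ((Ma d).card : ℝ) ∧ (Ma d).card ≤ Δ ∧ Ma d ⊆ U) →
      (∀ d, Real.log Δ ^ 2 ≤ ((Mi d).card : ℝ) ∧ (Mi d).card ≤ Δ ∧ Mi d ⊆ U) →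
      (∀ d, ∀ y ∈ Ma d, B d y ⊆ av G N F c U y ∧ om * N ≤ ((B d y).card : ℝ)) →
      (∀ d, ∀ y ∈ Ma d, nb G y ∩ U ⊆ Kl d y ∧ (Kl d y).card ≤ 3 * Δ ∧ y ∉ Kl d y) →
      (∀ w, (univ.filter (fun d => w ∈ Ma d ∨ ∃ y ∈ Ma d, w ∈ Kl d y)).card +
        (univ.filter (fun d => w ∈ Mi d)).card ≤ Δ ^ 4) →
      ∃ (c' : V → ℕ) (U' : Finset V), U' ⊆ U ∧ (∀ x, x ∉ U → c' x = c x) ∧
        PSt G N F c' U' ∧
        (∀ v, ((nb G v).filter (fun x => x ∈ U ∧ x ∉ U' ∧ c' x = t v x)).card ≤ 1) ∧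
        (∀ d, κ * ((Ma d).card : ℝ) ≤ (((Ma d).filter (fun y => y ∉ U' ∧ c' y ∈ B d y ∧
          ∀ w ∈ Kl d y, w ∈ U → w ∉ U' → c' w ≠ c' y)).card : ℝ)) ∧
        ∀ d, κ * ((Mi d).card : ℝ) ≤ (((Mi d ∩ U').card : ℝ))

/-- the sets `Ch i` may be used as chunks for the graph `G`: between `log Δ ^ 2` and `Δ` elements,
every vertex is in or adjacent to at most `Δ ^ 3` of them -/
structure Chk {V : Type u} [Fintype V] (G : SimpleGraph V) (Δ : ℕ) {I : Type u} [Fintype I]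
    (Ch : I → Finset V) : Prop where
  low : ∀ i, Real.log Δ ^ 2 ≤ ((Ch i).card : ℝ)
  upp : ∀ i, (Ch i).card ≤ Δ
  num : ∀ w, (univ.filter (fun i => w ∈ Ch i ∨ ∃ y ∈ Ch i, G.Adj w y)).card ≤ Δ ^ 3

/-- SPVE (block, from STEPK; base `SPV.main`, Work/MP_db9399_exp_helper99/SPV.lean): `SPV` for graphs
where every vertex is locally sparse or has slack (at least one spare colour); the colouring uses many
different colours on every chunk. `κ1` is absolute: the chunks are additional demands of the FIRST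
round (`B = P \ F y`, killers `nb G y ∪ Ch i \ {y}`). Vertices with slack (second case) have no
demands, they are coloured greedily at the end (as all vertices which are left after the rounds).
`F` may be large (2/5): the demands of the first round for the pairs `y`, `z` of nonadjacent
neighbours of a sparse vertex must use `B = (P \ F y) \ F z`. -/
def Stmt_SPVE : Prop :=
  ∃ κ1 : ℝ, 0 < κ1 ∧ κ1 ≤ 1 ∧ ∀ θ : ℝ, 0 < θ → ∃ (κ : ℝ) (Δ0 : ℕ), 0 < κ ∧ κ ≤ 1 / 16 ∧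
    ∀ {V : Type u} [Fintype V] (G : SimpleGraph V) (Δ : ℕ) (C : Type) (P : Finset C)
      (F : V → Finset C) (I : Type u) [Fintype I] (Ch : I → Finset V), Δ0 ≤ Δ →
      (∀ v, (nb G v).card ≤ Δ) → (1 - κ) * Δ ≤ (P.card : ℝ) → P.card ≤ 2 * Δ →
      (∀ v, 5 * (F v).card ≤ 2 * Δ) →
      (∀ v, (θ * (Δ : ℝ) ^ 2 ≤ ((mis G (nb G v)).card : ℝ) ∧ ((F v).card : ℝ) ≤ κ * Δ) ∨
        (nb G v).card + (F v).card < P.card) →
      Chk G Δ Ch →
      ∃ c : V → C, (∀ v, c v ∈ P ∧ c v ∉ F v) ∧ (∀ v w, G.Adj v w → c v ≠ c w) ∧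
        ∀ i, κ1 * ((Ch i).card : ℝ) ≤ (((Ch i).image c).card : ℝ)

/-! ## Labels with test sets -/

/-- LABT (block; base Work/MP_db9399_lf_helper6/LABF.lean): LABF with a family of test sets `S j`:
one more kind of event in `stmt_LLXF'` (one event for every `j` and every `P`, probability by a
Chernoff bound `2 exp (-c t² / |S j|)`, `t = δ |S j| + log² d`, so `t² ≥ 4 δ |S j| log² d`). -/
def Stmt_LABT : Prop :=
  ∀ (T : Type) [Fintype T] [Nonempty T] (F : ℕ) (σ c1 ρ δ : ℝ), 0 < σ → 0 < c1 → 0 < ρ →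
    0 < δ → ∃ d0 : ℕ, ∀ {V : Type u} [Fintype V] (Gs : Fin F → SimpleGraph V) (d : ℕ)
      (Ds : Fin F → ℕ) (J : Type u) [Fintype J] (S : J → Finset V),
      d0 ≤ d → (∀ i v, (nb (Gs i) v).card ≤ d) → (∀ i, ρ * d ≤ Ds i ∧ Ds i ≤ d) →
      (∀ j, (S j).card ≤ 2 * d) → (∀ v, (univ.filter (fun j => v ∈ S j)).card ≤ d ^ 6) →
      ∃ lab : V → T, (∀ i, LabP (Gs i) (Ds i) σ c1 lab) ∧
        ∀ j (P : Finset T), |((S j ∩ cl lab P).card : ℝ) - den P * (S j).card| ≤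
          δ * (S j).card + Real.log d ^ 2

/-- RLB (block): few labels may be changed. `q` = auxiliary labels of the same quality, `lab'`
differs from `lab` only at vertices with `q v ∈ R`. -/
def Stmt_RLB : Prop :=
  ∀ {V : Type u} [Fintype V] (T Q : Type) [Fintype T] [Fintype Q] (G : SimpleGraph V) (d : ℕ)
    (σ σ1 c1 : ℝ) (lab lab' : V → T) (q : V → Q) (R : Finset Q), (∀ v, (nb G v).card ≤ d) →
    0 ≤ σ → 0 ≤ σ1 → R.Nonempty → LabP G d σ c1 lab → LabP G d σ1 c1 q →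
    (∀ v, q v ∉ R → lab' v = lab v) → LabP G d (σ + 5 * σ1 + 5 * den R) c1 lab'

end Pool.Agent.Work.MP_db9399_vt
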