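import Pool.Agent.Work.MP_db9399_vt.Tools
import Pool.Agent.Work.MP_db9399_sl.Interface

/-!
# MP_db9399, PHASE 2 (short spots): the own colours of the outer vertices (owner helper94)

See `BLUEPRINT.md`. `O` = vertices outside all spots and outside `UH`. Result: `Stmt_OWN` (v2, with
light vertices): at every short spot `Y` with average outer degree `τ ≥ log³ d` of the light vertices
only `(1 - c) τ` colours are forbidden at almost all light vertices of `Y`.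
-/

set_option autoImplicit false

namespace Pool.Agent.Work.MP_db9399_vt

open Finset Classical
open Pool.Agent.Work.MP_db9399_all (nb mis)
open Pool.Agent.Work.MP_db9399_bg (den cl)
open Pool.Agent.Work.MP_db9399_px (ee)
open Pool.Agent.Work.MP_db9399_sl (InS Same Gout Nsc)

universe u

section defs
variable {V : Type u} [Fintype V]

/-- the labels are equidistributed on `S` -/
def Tst {T : Type} [Fintype T] (lab : V → T) (d : ℕ) (δ : ℝ) (S : Finset V) : Prop :=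
  ∀ P : Finset T, |((S ∩ cl lab P).card : ℝ) - den P * S.card| ≤ δ * S.card + Real.log d ^ 2

/-- the vertices of the class `q` -/
noncomputable def cq {Q : Type} (cls : V → Q) (q : Q) : Finset V :=
  univ.filter (fun v => cls v = q)

end defs

/-! ## VOUT: one colouring of the outer vertices -/

/-- Hypotheses of VOUT. `O` = vertices to be coloured, `cls` = class, `P q` = palette of the class
`q`, `F v` = forbidden colours (colours of neighbours in `UH`), `Cf` = conflict graph of the big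
vertices (they have slack), `C2` = conflict graph of small degree, `Ch i` = chunks. -/
structure VOH {V : Type u} [Fintype V] {Q C : Type} [Fintype Q] (c ξ κ' κ ε : ℝ)
    (G Cf C2 : SimpleGraph V) (d : ℕ) (O : Finset V) (cls : V → Q) (P : Q → Finset C)
    (F : V → Finset C) {I : Type u} [Fintype I] (Ch : I → Finset V) : Prop where
  Pl : ∀ q, (1 - κ) * d ≤ Fintype.card Q * ((P q).card : ℝ)
  Pu : ∀ q, 2 * (Fintype.card Q * (P q).card) ≤ 3 * d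
  Pd : ∀ q q', q ≠ q' → Disjoint (P q) (P q')
  deg : ∀ w ∈ O, Fintype.card Q * ((nb G w ∩ (O ∩ cq cls (cls w))).card : ℝ) ≤ (1 + ε) * d
  Fc : ∀ w ∈ O, Fintype.card Q * ((F w).card : ℝ) ≤ ε * d
  big : ∀ w ∈ O, ∀ u ∈ O, Cf.Adj w u →
    Fintype.card Q * (((nb G w ∩ (O ∩ cq cls (cls w))).card : ℝ) +
      (nb Cf w ∩ (O ∩ cq cls (cls w))).card) ≤ (1 - ξ) * d
  C2d : ∀ w ∈ O, Fintype.card Q * ((nb C2 w).card : ℝ) ≤ ε * d
  sps : ∀ w ∈ O, Fintype.card Q * ((nb G w ∩ (O ∩ cq cls (cls w))).card : ℝ) ≤ (1 - κ') * d ∨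
    c * (d : ℝ) ^ 2 ≤ (Fintype.card Q : ℝ) ^ 2 * (mis G (nb G w ∩ (O ∩ cq cls (cls w)))).card
  ChO : ∀ i, Ch i ⊆ O
  Chl : ∀ i q, 2 * Real.log d ^ 2 ≤ ((Ch i ∩ cq cls q).card : ℝ)
  Chu : ∀ i q, Fintype.card Q * (Ch i ∩ cq cls q).card ≤ d
  Chn : ∀ w, (univ.filter (fun i => w ∈ Ch i)).card ≤ d

/-- VOUT (block, from SPVE, once for every class `q`, applied to the graph `G ⊔ Cf ⊔ C2` restricted
to `O ∩ cq cls q`, `Δ = ⌈(1 + 2 ε) d / |Q|⌉`). A vertex `w` which is not big and has no degree slack is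
sparse in `G ⊔ Cf ⊔ C2`: let `M` be its neighbourhood; if `M` contains `(c / 8) d / |Q|` big
vertices, each of them misses `(ξ / 2) d / |Q|` of `M`; otherwise `Cf` only touches few vertices of
`M` and `sps` is used. `κ1` is that of SPVE. -/
def Stmt_VOUT : Prop :=
  ∃ κ1 : ℝ, 0 < κ1 ∧ κ1 ≤ 1 ∧ ∀ c ξ κ' : ℝ, 0 < c → c ≤ 1 → 0 < ξ → ξ ≤ 1 → 0 < κ' →
    κ' ≤ ξ / 4 → κ' ≤ c / 100 → ∃ κ : ℝ, 0 < κ ∧ ∀ N : ℕ, 0 < N → ∃ (ε : ℝ) (d0 : ℕ), 0 < ε ∧
    ∀ {V : Type u} [Fintype V] {Q C : Type} [Fintype Q] (G Cf C2 : SimpleGraph V) (d : ℕ)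
      (O : Finset V) (cls : V → Q) (P : Q → Finset C) (F : V → Finset C) (I : Type u) [Fintype I]
      (Ch : I → Finset V), d0 ≤ d → Fintype.card Q = N →
      VOH c ξ κ' κ ε G Cf C2 d O cls P F Ch →
      ∃ f : V → C, (∀ v ∈ O, f v ∈ P (cls v) ∧ f v ∉ F v) ∧
        (∀ v ∈ O, ∀ w ∈ O, G.Adj v w ∨ Cf.Adj v w ∨ C2.Adj v w → f v ≠ f w) ∧
        ∀ i, κ1 * ((Ch i).card : ℝ) ≤ (((Ch i).image f).card : ℝ)

/-! ## COUNT: forbidden colours at one spot -/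

/-- `It` is cut into sorted chunks of size `K` and a rest `Lf` -/
structure Srt {V : Type u} (It : Finset V) (e : V → ℕ) (K n : ℕ) (Ch : Fin n → Finset V)
    (Lf : Finset V) : Prop where
  sub : ∀ i, Ch i ⊆ It
  car : ∀ i, (Ch i).card = K
  dis : ∀ i j, i ≠ j → Disjoint (Ch i) (Ch j)
  srt : ∀ i j, i < j → ∀ v ∈ Ch i, ∀ w ∈ Ch j, e w ≤ e v
  lf : Lf ⊆ It
  lfc : Lf.card < K
  lfd : ∀ i, Disjoint (Ch i) Lf
  lfs : ∀ i, ∀ v ∈ Ch i, ∀ w ∈ Lf, e w ≤ e v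
  cov : ∀ v ∈ It, v ∈ Lf ∨ ∃ i, v ∈ Ch i

/-- CHK (block) -/
def Stmt_CHK : Prop :=
  ∀ {V : Type u} (It : Finset V) (e : V → ℕ) (K : ℕ), 0 < K →
    ∃ (n : ℕ) (Ch : Fin n → Finset V) (Lf : Finset V), Srt It e K n Ch Lf

/-- Hypotheses of COUNT. `W` = coloured vertices outside `Y`, `W ∩ UH`: arbitrary colours, small
total weight; big vertices have different colours; small vertices have many different colours on
every chunk. `Fy` = colours forbidden at almost all vertices of `Y`. -/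
structure CNH {V : Type u} [Fintype V] {C : Type} (κ1 ζ τ : ℝ) (G : SimpleGraph V) (d K n : ℕ)
    (Y W UH : Finset V) (c : V → C) (Ch : Fin n → Finset V) (Lf : Finset V) (Fy : Finset C) :
    Prop where
  k0 : 0 < κ1
  k1 : κ1 ≤ 1
  z0 : 0 < ζ
  z1 : ζ ≤ 1
  τ0 : 2000 ≤ κ1 * ζ * τ
  dp : 0 < d
  dY : d ≤ 2 * Y.card
  Yd : Y.card ≤ d
  Kl : 8 * τ ≤ κ1 * K
  Ku : κ1 * K ≤ 16 * τ
  wt : ∑ w ∈ W, ((nb G w ∩ Y).card : ℝ) ≤ τ * Y.card
  hub : ∀ w ∈ W, ζ * Y.card ≤ ((Y \ nb G w).card : ℝ)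
  uh : ∑ w ∈ W ∩ UH, ((nb G w ∩ Y).card : ℝ) ≤ 2 * Y.card
  big : ∀ w ∈ W, ∀ w' ∈ W, w ∉ UH → w' ∉ UH → w ≠ w' →
    κ1 * ζ / 1000 * d ≤ ((nb G w ∩ Y).card : ℝ) →
    κ1 * ζ / 1000 * d ≤ ((nb G w' ∩ Y).card : ℝ) → c w ≠ c w'
  srt : Srt (W.filter (fun w => w ∉ UH ∧ 0 < (nb G w ∩ Y).card ∧
    ((nb G w ∩ Y).card : ℝ) < κ1 * ζ / 1000 * d)) (fun w => (nb G w ∩ Y).card) K n Ch Lf
  dst : ∀ i, κ1 * K ≤ (((Ch i).image c).card : ℝ)
  Fy : ∀ b ∈ Fy, (1 - κ1 * ζ / 40) * Y.card ≤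
    ((Y.filter (fun s => ∃ w ∈ W, G.Adj s w ∧ c w = b)).card : ℝ)

/-- COUNT (block). Put `a = κ1 ζ`, `m = |Y|`, `e w = |N(w) ∩ Y|`, `F = |Fy|`. Trivially
`F (1 - a / 40) ≤ τ`. Every chunk has `≥ 8 τ` colours, so `≥ 6 τ` elements with a colour outside
`Fy`, and since the chunks are sorted the weight of all elements with a colour outside `Fy` is at
least `(6 τ / K) (W_small - K a d / 1000)`, `6 τ / K ≥ 3 κ1 / 8`. At most `80 / a` colours get
`a m / 40` from `UH`; every other colour of `Fy` gets `≥ (ζ - a / 20) m ≥ (ζ / 2) m` from small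
elements. So `τ ≥ F (1 - a/40) + (3 κ1 / 8) ((F - 80/a) ζ / 2 - 2 K a / 1000)`. -/
def Stmt_COUNT : Prop :=
  ∀ {V : Type u} [Fintype V] {C : Type} (κ1 ζ τ : ℝ) (G : SimpleGraph V) (d K n : ℕ)
    (Y W UH : Finset V) (c : V → C) (Ch : Fin n → Finset V) (Lf : Finset V) (Fy : Finset C),
    CNH κ1 ζ τ G d K n Y W UH c Ch Lf Fy → (Fy.card : ℝ) ≤ (1 - κ1 * ζ / 20) * τ

/-! ## OWN: own colours of the outer vertices -/

section own
variable {V : Type u} [Fintype V]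

/-- outer degree (with pendant edges) summed over the spot -/
noncomputable def tw (G : SimpleGraph V) (d : ℕ) (Y : Finset V) : ℝ :=
  ∑ v ∈ Y, ((d : ℝ) - (nb G v ∩ Y).card)

/-- the same for the light vertices of the spot (`L` = light vertices) -/
noncomputable def tl (G : SimpleGraph V) (d : ℕ) (L Y : Finset V) : ℝ :=
  ∑ v ∈ Y ∩ L, ((d : ℝ) - (nb G v ∩ Y).card)

/-- the vertices of `Y` where the colour `b` is forbidden by an outer vertex in `W` -/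
noncomputable def fb {C : Type} (G : SimpleGraph V) (W : Finset V) (c : V → C) (Y : Finset V)
    (b : C) : Finset V := Y.filter (fun s => ∃ w ∈ W, G.Adj s w ∧ c w = b)

/-- the outer vertices -/
noncomputable def outer (Ys : Finset (Finset V)) : Finset V := univ.filter (fun v => ¬ InS Ys v)

/-- hypotheses on the graph; `Ys` = all spots, `L` = light vertices (of small outer degree) -/
structure OwnH (ζ η g : ℝ) (G : SimpleGraph V) (d : ℕ) (Ys : Finset (Finset V)) (L UH : Finset V) :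
    Prop where
  deg : ∀ v, (nb G v).card ≤ d
  dis : ∀ Y ∈ Ys, ∀ Y' ∈ Ys, Y ≠ Y' → Disjoint Y Y'
  low : ∀ Y ∈ Ys, (9 / 10 : ℝ) * d ≤ ((Y ∩ L).card : ℝ)
  lgt : ∀ Y ∈ Ys, (Y.card : ℝ) ≤ (1 + η) * (Y ∩ L).card
  hub : ∀ Y ∈ Ys, ∀ v, v ∉ Y → ζ * d ≤ (((Y ∩ L) \ nb G v).card : ℝ)
  sum : ∀ Y ∈ Ys, tl G d L Y ≤ η * d * (Y ∩ L).card
  nsc : Nsc g (Gout G Ys) d
  two : ∀ v, (nb G v ∩ UH).card ≤ 2

end own

/-- OWN (owner helper94; from VOUT, CHK, COUNT). `GO` = `G` restricted to the outer vertices, `S j` =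
test sets (they do not depend on the labels), `fq` = class of a label, `C2` = additional conflict
graph of small degree, `Fx v` = additional forbidden colours. -/
def Stmt_OWN : Prop :=
  ∃ κ1 : ℝ, 0 < κ1 ∧ κ1 ≤ 1 ∧ ∀ ζ : ℝ, 0 < ζ → ζ ≤ 1 → ∃ η : ℝ, 0 < η ∧ ∀ g : ℝ, 0 < g →
    g ≤ 1 / 10 → ∃ κ : ℝ, 0 < κ ∧ ∀ N : ℕ, 0 < N → ∃ (δ : ℝ) (d0 : ℕ), 0 < δ ∧
    ∀ {V : Type u} [Fintype V] (G : SimpleGraph V) (d : ℕ) (Ys : Finset (Finset V))
      (L UH : Finset V), d0 ≤ d → OwnH ζ η g G d Ys L UH →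
      ∃ (J : Type u) (_ : Fintype J) (S : J → Finset V),
        (∀ j, (S j).card ≤ 2 * d) ∧ (∀ v, (univ.filter (fun j => v ∈ S j)).card ≤ d ^ 3) ∧
        ∀ {T Q C : Type} [Fintype T] [Fintype Q] (lab : V → T) (fq : T → Q) (P : Q → Finset C)
          (c0 : V → C) (Fx : V → Finset C) (GO C2 : SimpleGraph V),
          Fintype.card Q = N →
          (∀ q, den (univ.filter (fun t => fq t = q)) = 1 / (N : ℝ)) →
          (∀ v w, GO.Adj v w ↔ G.Adj v w ∧ v ∈ outer Ys ∧ w ∈ outer Ys) →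
          (∀ v (R : Finset T),
            |((nb GO v ∩ cl lab R).card : ℝ) - den R * (nb GO v).card| ≤ δ * d) →
          (∀ v (R : Finset T), ee GO (nb GO v ∩ cl lab R) (nb GO v ∩ cl lab R) ≤
            den R ^ 2 * ee GO (nb GO v) (nb GO v) + δ * (d : ℝ) ^ 2) →
          (∀ j, Tst lab d δ (S j)) →
          (∀ q, (1 - κ) * d ≤ N * ((P q).card : ℝ)) → (∀ q, 2 * (N * (P q).card) ≤ 3 * d) →
          (∀ q q', q ≠ q' → Disjoint (P q) (P q')) → (∀ v, ((nb C2 v).card : ℝ) ≤ δ * d) →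
          (∀ v, ((Fx v).card : ℝ) ≤ δ * d) →
          ∃ c : V → C, (∀ v ∈ UH, c v = c0 v) ∧
            (∀ v ∈ outer Ys, v ∉ UH → c v ∈ P (fq (lab v)) ∧ c v ∉ Fx v) ∧
            (∀ v w, v ∈ UH ∨ v ∈ outer Ys → w ∈ UH ∨ w ∈ outer Ys → ¬ (v ∈ UH ∧ w ∈ UH) →
              G.Adj v w → c v ≠ c w) ∧
            (∀ v ∈ outer Ys, ∀ w ∈ outer Ys, v ∉ UH → w ∉ UH → C2.Adj v w → c v ≠ c w) ∧
            ∀ Y ∈ Ys, Y.card ≤ d → Real.log d ^ 3 * (Y ∩ L).card ≤ tl G d L Y →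
              ∀ Fy : Finset C,
              (∀ b ∈ Fy, (1 - κ1 * ζ / 40) * (Y ∩ L).card ≤
                ((fb G ((UH ∪ outer Ys) \ Y) c (Y ∩ L) b).card : ℝ)) →
              (Fy.card : ℝ) * Y.card ≤ (1 - κ1 * ζ / 30) * tl G d L Y

end Pool.Agent.Work.MP_db9399_vt
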