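import Pool.Agent.Work.MP_db9399_all.Interface

/-!
# MP_db9399, PHASE 2: LSB = lopsided local lemma for random bijections with lists (owner helper94)

`X` = positions (all parts together), `pt x` = part of the position `x` (part = spot and third), `K i` =
colours of the part `i` (as many as positions), `Hv i` = heavy colours with lists `L i b`, the other
colours may be used at every position of the part. `bad x b`: `b` is forbidden at `x`. `Gs` = edges
between positions of different parts which must get different colours. `μ i b` bounds the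
probability that `b` is placed at a given position.
-/

set_option autoImplicit false

namespace Pool.Agent.Work.MP_db9399_vt

open Finset Classical
open Pool.Agent.Work.MP_db9399_all (nb)

universe u

/-- hypotheses of LSB -/
structure LSH {I X C : Type u} [Fintype X] (pt : X → I) (K Hv : I → Finset C)
    (L : I → C → Finset X) (μ : I → C → ℝ) (bad : X → C → Prop) (Gs : SimpleGraph X) : Prop where
  card : ∀ i, (univ.filter (fun x => pt x = i)).card = (K i).card
  HK : ∀ i, Hv i ⊆ K i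
  LS : ∀ i, ∀ b ∈ K i, ∀ x ∈ L i b, pt x = i
  Ll : ∀ i, ∀ b ∈ K i, b ∉ Hv i → ∀ x, pt x = i → x ∈ L i b
  μp : ∀ i, ∀ b ∈ K i, 0 < μ i b
  μL : ∀ i, ∀ b ∈ K i, 1 ≤ μ i b * (((L i b).card : ℝ) - (Hv i).card)
  gs : ∀ x x', Gs.Adj x x' → pt x ≠ pt x'
  row : ∀ x, ∑ b ∈ (K (pt x)).filter (fun b => x ∈ L (pt x) b ∧ bad x b), μ (pt x) b +
    ∑ x' ∈ nb Gs x, ∑ b ∈ (K (pt x)).filter (fun b => x ∈ L (pt x) b ∧ b ∈ K (pt x') ∧
      x' ∈ L (pt x') b), μ (pt x) b * μ (pt x') b ≤ 1 / 25
  col : ∀ i, ∀ b ∈ K i, ∑ _x ∈ (L i b).filter (fun x => bad x b), μ i b +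
    ∑ x ∈ L i b, ∑ x' ∈ (nb Gs x).filter (fun x' => b ∈ K (pt x') ∧ x' ∈ L (pt x') b),
      μ i b * μ (pt x') b ≤ 1 / 25

/-- LSB (owner helper94, from AL) -/
def Stmt_LSB : Prop :=
  ∀ {I X C : Type u} [Fintype X] [Fintype C] (pt : X → I) (K Hv : I → Finset C)
    (L : I → C → Finset X) (μ : I → C → ℝ) (bad : X → C → Prop) (Gs : SimpleGraph X),
    LSH pt K Hv L μ bad Gs →
    ∃ c : X → C, (∀ x, c x ∈ K (pt x) ∧ x ∈ L (pt x) (c x) ∧ ¬ bad x (c x)) ∧
      (∀ x x', pt x = pt x' → c x = c x' → x = x') ∧ ∀ x x', Gs.Adj x x' → c x ≠ c x'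

end Pool.Agent.Work.MP_db9399_vt
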